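import Mathlib
import Pool.Agent.H761R3.Gain3

/-! Adding coloops to a gain-graphic matroid. -/

set_option autoImplicit false

namespace Pool.Agent.Y617.MS

open Pool.Agent.H761R3.Gain GainGraph

variable {H V E : Type*} [Group H]

/-- add `t` new edges, each forming a new component with two new vertices -/
def addT (G : GainGraph H V E) (t : ℕ) : GainGraph H (V ⊕ Fin t × Bool) (E ⊕ Fin t) where
  src := Sum.map G.src (fun i => (i, false))
  tgt := Sum.map G.tgt (fun i => (i, true))
  gain := Sum.elim G.gain (fun _ => 1)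

/-- the embedding of directed edges -/
def up (t : ℕ) (d : E × Bool) : (E ⊕ Fin t) × Bool := (Sum.inl d.1, d.2)

variable {G : GainGraph H V E} {t : ℕ}

theorem tail_up (d : E × Bool) : (addT G t).tail (up t d) = Sum.inl (G.tail d) := by
  rcases d with ⟨e, _ | _⟩ <;> rfl

theorem head_up (d : E × Bool) : (addT G t).head (up t d) = Sum.inl (G.head d) := by
  rcases d with ⟨e, _ | _⟩ <;> rfl

theorem dgain_up (d : E × Bool) : (addT G t).dgain (up t d) = G.dgain d := by
  rcases d with ⟨e, _ | _⟩ <;> rfl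

theorem isCycle_up (l : List (E × Bool)) : (addT G t).IsCycle (l.map (up t)) ↔ G.IsCycle l := by
  unfold IsCycle
  have h1 : l.map (up t) ++ (l.map (up t)).take 1 = (l ++ l.take 1).map (up t) := by
    rw [List.map_append, List.map_take]
  have h2 : (l.map (up t)).map (addT G t).tail = (l.map G.tail).map Sum.inl := by
    rw [List.map_map, List.map_map]
    exact List.map_congr_left fun d _ => tail_up d
  have h3 : (l.map (up t)).map Prod.fst = (l.map Prod.fst).map Sum.inl := by
    rw [List.map_map, List.map_map]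
    rfl
  rw [h1, h2, h3, List.isChain_map, List.nodup_map_iff Sum.inl_injective,
    List.nodup_map_iff Sum.inl_injective]
  simp only [head_up, tail_up, Sum.inl.injEq, ne_eq, List.map_eq_nil_iff]

theorem balanced_up (l : List (E × Bool)) : (addT G t).Balanced (l.map (up t)) ↔ G.Balanced l := by
  unfold GainGraph.Balanced
  rw [List.map_map]
  have : (addT G t).dgain ∘ up t = G.dgain := funext fun d => dgain_up d
  rw [this]

theorem edges_up (l : List (E × Bool)) :
    edges (l.map (up t)) = (Sum.inl '' (edges l) : Set (E ⊕ Fin t)) := by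
  ext x
  simp only [edges, List.map_map, List.mem_map, Set.mem_ofPred_eq, Set.mem_image]
  constructor
  · rintro ⟨d, hd, rfl⟩
    exact ⟨d.1, ⟨d, hd, rfl⟩, rfl⟩
  · rintro ⟨_, ⟨d, hd, rfl⟩, rfl⟩
    exact ⟨d, hd, rfl⟩

theorem cycle_inl {l : List ((E ⊕ Fin t) × Bool)} (hl : (addT G t).IsCycle l) :
    ∀ d ∈ l, ∃ e : E × Bool, up t e = d := by
  obtain ⟨h0, h1, h2, h3⟩ := hl
  rintro ⟨(e | i), s⟩ hd
  · exact ⟨(e, s), rfl⟩
  exfalso
  obtain ⟨q, hq, hqd⟩ := List.getElem_of_mem hd
  have hlen : (l ++ l.take 1).length = l.length + 1 := by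
    rw [List.length_append, List.length_take]
    have : 0 < l.length := List.length_pos_iff.2 h0
    omega
  have hR := List.isChain_iff_getElem.1 h1 q (by omega)
  -- the index of the successor
  obtain ⟨q', hq', hR'⟩ : ∃ (q' : ℕ) (hq' : q' < l.length),
      (addT G t).head l[q] = (addT G t).tail l[q'] := by
    by_cases hc : q + 1 < l.length
    · refine ⟨q + 1, hc, ?_⟩
      rwa [List.getElem_append_left hq, List.getElem_append_left hc] at hR
    · have hq1 : q + 1 = l.length := by omega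
      refine ⟨0, List.length_pos_iff.2 h0, ?_⟩
      rw [List.getElem_append_left hq, List.getElem_append_right (by omega)] at hR
      rw [hR]
      congr 1
      rw [List.getElem_take]
      congr 1
      omega
  rw [hqd] at hR'
  have hi : (l[q']).1 = Sum.inr i := by
    rcases hx : l[q'] with ⟨(e | j), s'⟩
    · rw [hx] at hR'
      cases s <;> cases s' <;> simp [GainGraph.head, GainGraph.tail, addT] at hR'
    · rw [hx] at hR'
      cases s <;> cases s' <;> simp [GainGraph.head, GainGraph.tail, addT] at hR' <;>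
        rw [hR']
  have hqq : q = q' := by
    have hm1 : (l.map Prod.fst)[q]'(by rwa [List.length_map]) = Sum.inr i := by
      rw [List.getElem_map, hqd]
    have hm2 : (l.map Prod.fst)[q']'(by rwa [List.length_map]) = Sum.inr i := by
      rw [List.getElem_map, hi]
    exact (h3.getElem_inj_iff).1 (hm1.trans hm2.symm)
  subst hqq
  rw [hqd] at hR'
  cases s <;> simp [GainGraph.head, GainGraph.tail, addT] at hR'

theorem exists_map_up {l : List ((E ⊕ Fin t) × Bool)} (h : ∀ d ∈ l, ∃ e : E × Bool, up t e = d) :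
    ∃ l0 : List (E × Bool), l0.map (up t) = l := by
  induction l with
  | nil => exact ⟨[], rfl⟩
  | cons d l ih =>
    obtain ⟨l0, h0⟩ := ih fun d hd => h d (List.mem_cons_of_mem _ hd)
    obtain ⟨e, he⟩ := h d List.mem_cons_self
    exact ⟨e :: l0, by rw [List.map_cons, he, h0]⟩

theorem conn_up (X : Set (E ⊕ Fin t)) (u v : V) :
    (addT G t).Conn X (Sum.inl u) (Sum.inl v) ↔ G.Conn (Sum.inl ⁻¹' X) u v := by
  constructor
  · intro h
    have key : ∀ a b : V ⊕ Fin t × Bool, (addT G t).Conn X a b →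
        (∃ u v, a = Sum.inl u ∧ b = Sum.inl v ∧ G.Conn (Sum.inl ⁻¹' X) u v) ∨
        (∃ p q, a = Sum.inr p ∧ b = Sum.inr q) := by
      intro a b hab
      induction hab with
      | rel a b hab =>
        obtain ⟨(e | i), he, h1, h2⟩ := hab
        · exact Or.inl ⟨G.src e, G.tgt e, h1.symm, h2.symm, Relation.EqvGen.rel _ _ ⟨e, he, rfl, rfl⟩⟩
        · exact Or.inr ⟨(i, false), (i, true), h1.symm, h2.symm⟩
      | refl a =>
        rcases a with u | p
        · exact Or.inl ⟨u, u, rfl, rfl, Relation.EqvGen.refl _⟩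
        · exact Or.inr ⟨p, p, rfl, rfl⟩
      | symm a b _ ih =>
        rcases ih with ⟨u, v, h1, h2, h3⟩ | ⟨p, q, h1, h2⟩
        · exact Or.inl ⟨v, u, h2, h1, h3.symm⟩
        · exact Or.inr ⟨q, p, h2, h1⟩
      | trans a b c _ _ ih1 ih2 =>
        rcases ih1 with ⟨u, v, h1, h2, h3⟩ | ⟨p, q, h1, h2⟩
        · rcases ih2 with ⟨u', v', h1', h2', h3'⟩ | ⟨p', q', h1', h2'⟩
          · rw [h2] at h1'
            obtain rfl := Sum.inl.inj h1'
            exact Or.inl ⟨u, v', h1, h2', h3.trans _ _ _ h3'⟩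
          · rw [h2] at h1'
            cases h1'
        · rcases ih2 with ⟨u', v', h1', h2', h3'⟩ | ⟨p', q', h1', h2'⟩
          · rw [h2] at h1'
            cases h1'
          · exact Or.inr ⟨p, q', h1, h2'⟩
    rcases key _ _ h with ⟨u', v', h1, h2, h3⟩ | ⟨p, q, h1, h2⟩
    · obtain rfl := Sum.inl.inj h1
      obtain rfl := Sum.inl.inj h2
      exact h3
    · cases h1
  · intro h
    induction h with
    | rel a b hab =>
      obtain ⟨e, he, h1, h2⟩ := hab
      exact Relation.EqvGen.rel _ _ ⟨Sum.inl e, he, congrArg Sum.inl h1, congrArg Sum.inl h2⟩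
    | refl a => exact Relation.EqvGen.refl _
    | symm a b _ ih => exact ih.symm
    | trans a b c _ _ ih1 ih2 => exact ih1.trans _ _ _ ih2

theorem indep_addT (X : Set (E ⊕ Fin t)) :
    (addT G t).Indep X ↔ G.Indep (Sum.inl ⁻¹' X) := by
  have hsub : ∀ l0 : List (E × Bool), edges (l0.map (up t)) ⊆ X ↔ edges l0 ⊆ Sum.inl ⁻¹' X := by
    intro l0
    rw [edges_up, Set.image_subset_iff]
  constructor
  · rintro ⟨h1, h2⟩
    refine ⟨fun l hl hX hb => h1 _ ((isCycle_up l).2 hl) ((hsub l).2 hX) ((balanced_up l).2 hb),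
      fun l l' hl hl' hX hX' hd => ?_⟩
    obtain ⟨d, hd, d', hd', hc⟩ := hd
    have := h2 _ _ ((isCycle_up (t := t) l).2 hl) ((isCycle_up l').2 hl') ((hsub l).2 hX)
      ((hsub l').2 hX') ⟨up t d, List.mem_map_of_mem hd, up t d', List.mem_map_of_mem hd', by
        rw [tail_up, tail_up, conn_up]
        exact hc⟩
    rw [edges_up, edges_up] at this
    exact Sum.inl_injective.image_injective this
  · rintro ⟨h1, h2⟩
    refine ⟨fun l hl hX hb => ?_, fun l l' hl hl' hX hX' hd => ?_⟩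
    · obtain ⟨l0, rfl⟩ := exists_map_up (cycle_inl hl)
      exact h1 l0 ((isCycle_up l0).1 hl) ((hsub l0).1 hX) ((balanced_up l0).1 hb)
    · obtain ⟨l0, rfl⟩ := exists_map_up (cycle_inl hl)
      obtain ⟨l1, rfl⟩ := exists_map_up (cycle_inl hl')
      obtain ⟨d, hd, d', hd', hc⟩ := hd
      rw [List.mem_map] at hd hd'
      obtain ⟨d, hd, rfl⟩ := hd
      obtain ⟨d', hd', rfl⟩ := hd'
      rw [tail_up, tail_up, conn_up] at hc
      rw [edges_up, edges_up, h2 l0 l1 ((isCycle_up l0).1 hl) ((isCycle_up l1).1 hl')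
        ((hsub l0).1 hX) ((hsub l1).1 hX') ⟨d, hd, d', hd', hc⟩]

/-- the free matroid with `t` elements -/
abbrev Fr (t : ℕ) : Matroid (Fin t) := Matroid.freeOn Set.univ

/-- adding `t` coloops to an `H`-gain-graphic matroid gives an `H`-gain-graphic matroid -/
theorem gg_sum {α : Type} {M : Matroid α} (hM : IsGainGraphic H M) (t : ℕ) :
    IsGainGraphic H (M.sum (Fr t)) := by
  obtain ⟨V, E, _, _, G, φ, hφ⟩ := hM
  have hE : (M.sum (Fr t)).E = Sum.inl '' M.E ∪ Sum.inr '' Set.univ := by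
    rw [Matroid.sum_ground]
    rfl
  let f : E ⊕ Fin t → α ⊕ Fin t := Sum.map (fun e => (φ e : α)) id
  have hfE : ∀ x, f x ∈ (M.sum (Fr t)).E := by
    intro x
    rw [hE]
    rcases x with e | i
    · exact Or.inl ⟨φ e, (φ e).2, rfl⟩
    · exact Or.inr ⟨i, trivial, rfl⟩
  have hfinj : Function.Injective f := by
    rintro (e | i) (e' | i') h
    · have := Sum.inl.inj h
      rw [φ.injective (Subtype.ext this)]
    · cases h
    · cases h
    · exact congrArg Sum.inr (Sum.inr.inj h)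
  have hfsurj : ∀ y ∈ (M.sum (Fr t)).E, ∃ x, f x = y := by
    intro y hy
    rw [hE] at hy
    rcases hy with ⟨a, ha, rfl⟩ | ⟨i, _, rfl⟩
    · refine ⟨Sum.inl (φ.symm ⟨a, ha⟩), ?_⟩
      change Sum.inl ((φ (φ.symm ⟨a, ha⟩) : M.E) : α) = _
      rw [Equiv.apply_symm_apply]
    · exact ⟨Sum.inr i, rfl⟩
  let ψ : E ⊕ Fin t ≃ (M.sum (Fr t)).E := Equiv.ofBijective (fun x => ⟨f x, hfE x⟩)
    ⟨fun x y h => hfinj (congrArg Subtype.val h), fun y => by
      obtain ⟨x, hx⟩ := hfsurj y.1 y.2
      exact ⟨x, Subtype.ext hx⟩⟩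
  refine ⟨V ⊕ Fin t × Bool, E ⊕ Fin t, inferInstance, inferInstance, addT G t, ψ, fun X => ?_⟩
  rw [indep_addT, hφ, Matroid.sum_indep_iff]
  have h1 : (Sum.inl ⁻¹' ((fun e => ((ψ e : (M.sum (Fr t)).E) : α ⊕ Fin t)) '' X) : Set α) =
      (fun e => (φ e : α)) '' (Sum.inl ⁻¹' X) := by
    ext a
    constructor
    · rintro ⟨(e | i), he, h⟩
      · exact ⟨e, he, Sum.inl.inj h⟩
      · cases h
    · rintro ⟨e, he, rfl⟩
      exact ⟨Sum.inl e, he, rfl⟩
  rw [h1]
  constructor
  · intro h
    exact ⟨h, Matroid.freeOn_indep_iff.2 (Set.subset_univ _)⟩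
  · exact fun h => h.1

theorem eRank_sum {α : Type} {M : Matroid α} {r : ℕ} (hM : M.eRank = r) (t : ℕ) :
    (M.sum (Fr t)).eRank = ((r + t : ℕ) : ℕ∞) := by
  obtain ⟨B, hB⟩ := M.exists_isBase
  have hB' : (M.sum (Fr t)).IsBase (Sum.inl '' B ∪ Sum.inr '' Set.univ) := by
    rw [Matroid.sum_isBase_iff]
    have h1 : (Sum.inl ⁻¹' ((Sum.inl '' B : Set (α ⊕ Fin t)) ∪ Sum.inr '' Set.univ) : Set α) = B := by
      ext a
      simp
    have h2 : (Sum.inr ⁻¹' ((Sum.inl '' B : Set (α ⊕ Fin t)) ∪ Sum.inr '' Set.univ) : Set (Fin t))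
        = Set.univ := by
      ext a
      simp
    rw [h1, h2]
    exact ⟨hB, Matroid.freeOn_isBase_iff.2 rfl⟩
  rw [← hB'.encard_eq_eRank, Set.encard_union_eq, Sum.inl_injective.encard_image,
    Sum.inr_injective.encard_image, hB.encard_eq_eRank, hM]
  · simp
  · rw [Set.disjoint_left]
    rintro _ ⟨a, _, rfl⟩ ⟨b, _, h⟩
    cases h

end Pool.Agent.Y617.MS
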