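import Mathlib
import Pool.Agent.H761R3.Gain3
import Pool.Agent.H761R3.Red

/-! Extensions of the reduction of `Pool.Agent.H761R3`: large finite groups, transfer of the coded
systems to matroids with a given restriction, coloops. -/

set_option autoImplicit false

namespace Pool.Agent.Y617.MS

open Pool.Agent.H761R3.MS0 Pool.Agent.H761R3.Gain Pool.Agent.H761R3.Sys

universe u

/-- Generic pairs of families exist in every group with more than `n ^ 3` elements. -/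
theorem exists_gen_big (H : Type*) [Group H] (n : ℕ) (hH : Infinite H ∨ n ^ 3 + n < Nat.card H) :
    ∃ g h : Fin n → H, Gen g h := by
  classical
  rcases hH with hH | hH
  · exact exists_gen H n
  have hfin : Finite H := Nat.finite_of_card_ne_zero (by omega)
  have hft : Fintype H := Fintype.ofFinite H
  have hcard : n ^ 3 + n < Fintype.card H := by rwa [Nat.card_eq_fintype_card] at hH
  obtain ⟨g⟩ : Nonempty (Fin n ↪ H) :=
    Function.Embedding.nonempty_of_card_le (by rw [Fintype.card_fin]; omega)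
  let D : Finset H := (Finset.univ ×ˢ Finset.univ : Finset (Fin n × Fin n)).image
    fun p => (g p.1)⁻¹ * g p.2
  have hDc : D.card ≤ n * n := by
    refine Finset.card_image_le.trans ?_
    simp
  have key : ∀ m : ℕ, m ≤ n → ∃ h : ℕ → H, ∀ j < m, ∀ j' < j, ∀ d ∈ D, h j ≠ d * h j' := by
    intro m
    induction m with
    | zero => exact fun _ => ⟨fun _ => 1, by simp⟩
    | succ m ih =>
      intro hmn
      obtain ⟨h, hh⟩ := ih (by omega)
      have hc : ((D ×ˢ Finset.range m).image fun p => p.1 * h p.2).card < Fintype.card H := by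
        refine lt_of_le_of_lt (Finset.card_image_le.trans ?_) hcard
        rw [Finset.card_product, Finset.card_range]
        have h1 : D.card * m ≤ n * n * n := Nat.mul_le_mul hDc (by omega)
        have h2 : n * n * n = n ^ 3 := by ring
        omega
      obtain ⟨x, hx⟩ : ∃ x, x ∉ ((D ×ˢ Finset.range m).image fun p => p.1 * h p.2) := by
        by_contra hcon
        push Not at hcon
        have : ((D ×ˢ Finset.range m).image fun p => p.1 * h p.2) = Finset.univ :=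
          Finset.eq_univ_of_forall hcon
        rw [this, Finset.card_univ] at hc
        exact lt_irrefl _ hc
      refine ⟨Function.update h m x, fun j hj j' hj' d hd => ?_⟩
      have hj'm : j' ≠ m := by omega
      rcases Nat.lt_succ_iff_lt_or_eq.1 hj with h1 | h1
      · rw [Function.update_of_ne h1.ne, Function.update_of_ne hj'm]
        exact hh j h1 j' hj' d hd
      · rw [h1, Function.update_self, Function.update_of_ne hj'm]
        intro hxe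
        apply hx
        rw [Finset.mem_image]
        exact ⟨(d, j'), by simp [hd]; omega, hxe.symm⟩
  obtain ⟨h, hh⟩ := key n le_rfl
  have hD : ∀ i i' : Fin n, (g i)⁻¹ * g i' ∈ D := by
    intro i i'
    rw [Finset.mem_image]
    exact ⟨(i, i'), by simp, rfl⟩
  refine ⟨g, fun j => h j, ?_⟩
  have main : ∀ (i : Fin n) (j : Fin n) (i' j' : Fin n), g i * h j = g i' * h j' →
      ¬ (j' < j) := by
    intro i j i' j' he hlt
    refine hh j j.2 j' hlt _ (hD i i') ?_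
    rw [mul_assoc, ← he, inv_mul_cancel_left]
  intro i j i' j' he
  have h1 : j = j' := le_antisymm (not_lt.1 (main i j i' j' he)) (not_lt.1 (main i' j' i j he.symm))
  subst h1
  exact ⟨g.injective (mul_right_cancel he), rfl⟩

/-! ### Transfer along embeddings -/

/-- `M` is isomorphic to a restriction of `M'`. -/
def Emb {α β : Type} (M : Matroid α) (M' : Matroid β) : Prop :=
  ∃ φ : α → β, Set.InjOn φ M.E ∧ φ '' M.E ⊆ M'.E ∧
    ∀ X : Set α, X ⊆ M.E → (M'.Indep (φ '' X) ↔ M.Indep X)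

section transfer

variable {α β : Type} {M : Matroid α} {M' : Matroid β} {φ : α → β}

theorem rel_emb (hφ : ∀ X : Set α, X ⊆ M.E → (M'.Indep (φ '' X) ↔ M.Indep X)) {R : Set α}
    (hR : R ⊆ M.E) {x y : α} (hx : x ∈ M.E) (hy : y ∈ M.E) :
    rel M' (φ '' R) (φ x) (φ y) ↔ rel M R x y := by
  have h : ∀ r, ({φ x} ∪ {φ y} ∪ {φ r} : Set β) = φ '' ({x} ∪ {y} ∪ {r}) := by
    intro r
    rw [Set.image_union, Set.image_union, Set.image_singleton, Set.image_singleton,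
      Set.image_singleton]
  have hs : ∀ r ∈ R, ({x} ∪ {y} ∪ {r} : Set α) ⊆ M.E := by
    rintro r hr z ((rfl | rfl) | rfl)
    · exact hx
    · exact hy
    · exact hR hr
  constructor
  · rintro ⟨_, ⟨r, hr, rfl⟩, h1⟩
    refine ⟨r, hr, ?_⟩
    rwa [h, hφ _ (hs r hr)] at h1
  · rintro ⟨r, hr, h1⟩
    refine ⟨φ r, ⟨r, hr, rfl⟩, ?_⟩
    rwa [h, hφ _ (hs r hr)]

theorem map_emb
    (hφ : ∀ X : Set α, X ⊆ M.E → (M'.Indep (φ '' X) ↔ M.Indep X)) {R Z X : Set α}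
    (hR : R ⊆ M.E) (hZ : Z ⊆ M.E) (hX : X ⊆ M.E) (h : Map M R Z X) :
    Map M' (φ '' R) (φ '' Z) (φ '' X) := by
  rintro _ ⟨z, hz, rfl⟩
  obtain ⟨x, ⟨hx, hx1⟩, hx2⟩ := h z hz
  refine ⟨φ x, ⟨⟨x, hx, rfl⟩, (rel_emb hφ hR (hZ hz) (hX hx)).2 hx1⟩, ?_⟩
  rintro _ ⟨⟨y, hy, rfl⟩, hy1⟩
  rw [hx2 y ⟨hy, (rel_emb hφ hR (hZ hz) (hX hy)).1 hy1⟩]

theorem bij_emb
    (hφ : ∀ X : Set α, X ⊆ M.E → (M'.Indep (φ '' X) ↔ M.Indep X)) {R Z X : Set α}
    (hR : R ⊆ M.E) (hZ : Z ⊆ M.E) (hX : X ⊆ M.E) (h : Bij M R Z X) :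
    Bij M' (φ '' R) (φ '' Z) (φ '' X) := by
  refine ⟨map_emb hφ hR hZ hX h.1, ?_⟩
  rintro _ ⟨x, hx, rfl⟩
  obtain ⟨z, ⟨hz, hz1⟩, hz2⟩ := h.2 x hx
  refine ⟨φ z, ⟨⟨z, hz, rfl⟩, (rel_emb hφ hR (hZ hz) (hX hx)).2 hz1⟩, ?_⟩
  rintro _ ⟨⟨y, hy, rfl⟩, hy1⟩
  rw [hz2 y ⟨hy, (rel_emb hφ hR (hZ hy) (hX hx)).1 hy1⟩]

theorem holds_emb (hinj : Set.InjOn φ M.E) (hE : φ '' M.E ⊆ M'.E)
    (hφ : ∀ X : Set α, X ⊆ M.E → (M'.Indep (φ '' X) ↔ M.Indep X)) {k : ℕ} {w : ℕ → Set α}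
    (hw : ∀ i < 2 * k, w i ⊆ M.E) {c : Con} (hc : c.Below k) (h : HoldsM M w c) :
    HoldsM M' (fun i => φ '' (w i)) c := by
  have hsub : ∀ {S : Set α}, S ⊆ M.E → φ '' S ⊆ M'.E := fun hS => (Set.image_mono hS).trans hE
  cases c with
  | one i =>
    obtain ⟨x, ⟨hx1, hx2⟩, hx3⟩ := h
    have hi : i < k := hc
    refine ⟨φ x, ⟨hE ⟨x, hx1, rfl⟩, ⟨x, hx2, rfl⟩⟩, ?_⟩
    rintro _ ⟨_, ⟨y, hy, rfl⟩⟩
    rw [hx3 y ⟨hw _ (by omega) hy, hy⟩]
  | add i j l =>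
    obtain ⟨Z', hZ', Z'', hZ'', R', hR', R'', hR'', h1, h2, h3⟩ := h
    obtain ⟨hi, hj, hl⟩ := hc
    refine ⟨φ '' Z', hsub hZ', φ '' Z'', hsub hZ'', φ '' R', hsub hR', φ '' R'', hsub hR'', ?_,
      bij_emb hφ hR' hZ' (hw _ (by omega)) h2, bij_emb hφ hR'' hZ'' (hw _ (by omega)) h3⟩
    intro z _
    have hl' : w (2 * l + 1) ⊆ M.E := hw _ (by omega)
    constructor
    · constructor
      · rintro ⟨x, hx, rfl⟩
        rcases (h1 x (hl' hx)).1.1 hx with h | h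
        · exact Or.inl ⟨x, h, rfl⟩
        · exact Or.inr ⟨x, h, rfl⟩
      · rintro (⟨x, hx, rfl⟩ | ⟨x, hx, rfl⟩)
        · exact ⟨x, (h1 x (hZ' hx)).1.2 (Or.inl hx), rfl⟩
        · exact ⟨x, (h1 x (hZ'' hx)).1.2 (Or.inr hx), rfl⟩
    · rintro ⟨⟨x, hx, rfl⟩, ⟨y, hy, hxy⟩⟩
      have : y = x := hinj (hZ'' hy) (hZ' hx) hxy
      subst this
      exact (h1 y (hZ' hx)).2 ⟨hx, hy⟩
  | mul i j l =>
    obtain ⟨P, hP, Q, hQ, h1, h2, h3⟩ := h
    obtain ⟨hi, hj, hl⟩ := hc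
    have hl' : w (2 * l + 1) ⊆ M.E := hw _ (by omega)
    have hi' : w (2 * i) ⊆ M.E := hw _ (by omega)
    have hj' : w (2 * j) ⊆ M.E := hw _ (by omega)
    refine ⟨φ '' P, hsub hP, φ '' Q, hsub hQ, map_emb hφ hP hl' hi' h1,
      map_emb hφ hQ hl' hj' h2, ?_⟩
    rintro _ ⟨x, hx, rfl⟩ _ ⟨y, hy, rfl⟩
    obtain ⟨z, ⟨hz, hz1, hz2⟩, hz3⟩ := h3 x hx y hy
    refine ⟨φ z, ⟨⟨z, hz, rfl⟩, (rel_emb hφ hP (hl' hz) (hi' hx)).2 hz1,
      (rel_emb hφ hQ (hl' hz) (hj' hy)).2 hz2⟩, ?_⟩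
    rintro _ ⟨⟨t, ht, rfl⟩, ht1, ht2⟩
    rw [hz3 t ⟨ht, (rel_emb hφ hP (hl' ht) (hi' hx)).1 ht1, (rel_emb hφ hQ (hl' ht) (hj' hy)).1 ht2⟩]

theorem sol_emb (hinj : Set.InjOn φ M.E) (hE : φ '' M.E ⊆ M'.E)
    (hφ : ∀ X : Set α, X ⊆ M.E → (M'.Indep (φ '' X) ↔ M.Indep X)) {k : ℕ} {L : List Con}
    (hL : ∀ c ∈ L, c.Below k) {X : Set α} (h : Sol M k L (fun _ => X)) :
    Sol M' k L (fun _ => φ '' X) := by
  obtain ⟨w, h1, h2, h3, h4, h5⟩ := h
  have hsub : ∀ {S : Set α}, S ⊆ M.E → φ '' S ⊆ M'.E := fun hS => (Set.image_mono hS).trans hE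
  refine ⟨fun i => φ '' (w i), fun i hi => hsub (h1 i hi), fun i => by simp only [h2], ?_, ?_, ?_⟩
  · simp only [h3]
  · intro i hi
    obtain ⟨R, hR, hb⟩ := h4 i hi
    rw [List.mem_range] at hi
    exact ⟨φ '' R, hsub hR, bij_emb hφ hR (h1 _ (by omega)) (h1 _ (by omega)) hb⟩
  · intro c hc
    exact holds_emb hinj hE hφ h1 (hL c hc) (h5 c hc)

end transfer

end Pool.Agent.Y617.MS
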