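import Mathlib
import Pool.Agent.Y617.MS.Ext
import Pool.Agent.Y617.MS.Col

set_option autoImplicit false

namespace Pool.Agent.Y617.MS

open Pool.Agent.H761R3.MS0 Pool.Agent.H761R3.Gain Pool.Agent.H761R3.Sys

universe u

/-- A class `C` of matroids is rich if for every `N` there are a group `H` with at least `N`
elements (possibly infinite) and a number `r ≥ 3` such that every finite `H`-gain-graphic matroid of
rank `r` is isomorphic to a restriction of a finite member of `C`. -/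
def Rich (C : (α : Type) → Matroid α → Prop) : Prop :=
  ∀ N : ℕ, ∃ (H : Type u) (_ : Group H) (r : ℕ), (Infinite H ∨ N ≤ Nat.card H) ∧ 3 ≤ r ∧
    ∀ (α : Type) (M : Matroid α), M.E.Finite → M.eRank = r → IsGainGraphic H M →
      ∃ (β : Type) (M' : Matroid β), C β M' ∧ M'.E.Finite ∧ Emb M M'

theorem emb_sum {α : Type} (M : Matroid α) (t : ℕ) : Emb M (M.sum (Fr t)) := by
  refine ⟨Sum.inl, Sum.inl_injective.injOn, ?_, fun X _ => ?_⟩
  · rw [Matroid.sum_ground]
    exact Set.subset_union_left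
  · rw [Matroid.sum_indep_iff, Set.preimage_image_eq _ Sum.inl_injective]
    exact and_iff_left (Matroid.freeOn_indep_iff.2 (Set.subset_univ _))

theorem Emb.trans {α β γ : Type} {M : Matroid α} {M' : Matroid β} {M'' : Matroid γ}
    (h : Emb M M') (h' : Emb M' M'') : Emb M M'' := by
  obtain ⟨φ, h1, h2, h3⟩ := h
  obtain ⟨ψ, h1', h2', h3'⟩ := h'
  refine ⟨ψ ∘ φ, fun x hx y hy hxy => h1 hx hy (h1' (h2 ⟨x, hx, rfl⟩) (h2 ⟨y, hy, rfl⟩) hxy), ?_,
    fun X hX => ?_⟩
  · rw [Set.image_comp]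
    exact (Set.image_mono h2).trans h2'
  · rw [Set.image_comp, h3' _ ((Set.image_mono hX).trans h2), h3 X hX]

/-- in a rich class every solvable system has a model -/
theorem Rich.model {C : (α : Type) → Matroid α → Prop} (hC : Rich.{u} C) (k : ℕ) (L : List Con)
    (x : ℕ → ℕ) (hL : ∀ c ∈ L, c.Below k) (hk : 1 ≤ k) (hx : ∀ c ∈ L, c.Holds x) :
    ∃ (α : Type) (M : Matroid α), C α M ∧ M.E.Finite ∧ ∃ X : Set α, X ⊆ M.E ∧ X.ncard = x 0 ∧
      Sol M k L (fun _ => X) := by
  let m : ℕ := (∑ i ∈ Finset.range k, x i) + 2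
  have hm : ∀ i < k, x i ≤ m := by
    intro i hi
    have := Finset.single_le_sum (f := x) (fun _ _ => Nat.zero_le _) (Finset.mem_range.2 hi)
    change x i ≤ (∑ i ∈ Finset.range k, x i) + 2
    omega
  have h0 : 0 < m := Nat.succ_pos _
  have h1 : 1 < m := by
    change 1 < (∑ i ∈ Finset.range k, x i) + 2
    omega
  obtain ⟨H, _, r, hH, hr, hC'⟩ := hC (m ^ 3 + m + 1)
  obtain ⟨g, h, hg⟩ := exists_gen_big H m (hH.imp id fun h => by omega)
  have : Nonempty (Fin m) := ⟨⟨0, h0⟩⟩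
  have hrank : (El.mat (Fin m)).eRank = ((3 : ℕ) : ℕ∞) := mat_rank ⟨0, h0⟩ ⟨1, h1⟩ (by simp)
  obtain ⟨X, hX, hc, hs⟩ := Pool.Agent.H761R3.Gain.model k L x hL hk hx m hm
  obtain ⟨β, M', hM', hfin, hemb⟩ := hC' _ ((El.mat (Fin m)).sum (Fr (r - 3)))
    (Set.toFinite _) (by rw [eRank_sum hrank]; congr 2; omega) (gg_sum (mat_gainGraphic hg) _)
  obtain ⟨φ, e1, e2, e3⟩ := (emb_sum (El.mat (Fin m)) (r - 3)).trans hemb
  refine ⟨β, M', hM', hfin, φ '' X, (Set.image_mono hX).trans e2, ?_, sol_emb e1 e2 e3 hL hs⟩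
  rw [(e1.mono hX).ncard_image, hc]

/-- The reduction: recursively enumerable sets reduce to the sentences that fail in a member of the
class, and on the complement the sentences hold in all finite matroids. -/
theorem Rich.reduction {C : (α : Type) → Matroid α → Prop} (hC : Rich.{u} C) {S : ℕ → Prop}
    (hS : REPred S) : ∃ σ : ℕ → Fml, Computable (fun n => (σ n).code) ∧ (∀ n, (σ n).IsSentence) ∧
      (∀ n, S n → ∃ (α : Type) (M : Matroid α), C α M ∧ M.E.Finite ∧
        ¬ (σ n).Sat M (fun _ => ∅)) ∧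
      ∀ n, ¬ S n → ∀ (α : Type) (M : Matroid α), M.E.Finite → (σ n).Sat M (fun _ => ∅) := by
  obtain ⟨k, L, σ, hk, hL, hx, hσ, hs, h⟩ := exists_sentences S hS
  refine ⟨σ, hσ, hs, fun n hn => ?_, fun n hn α M hM => ?_⟩
  · obtain ⟨x, hx0, hxL⟩ := (hx n).1 hn
    obtain ⟨α, M, hC', hfin, X, hX, h3, h4⟩ := hC.model k L x hL hk hxL
    exact ⟨α, M, hC', hfin, fun h2 => (h n α M hfin).1 h2 ⟨X, hX, h3.trans hx0, h4⟩⟩
  · rw [h n α M hM]
    rintro ⟨X, hX, h3, h4⟩
    obtain ⟨x, hx0, hxL⟩ := h4.sound hM hL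
    exact hn ((hx n).2 ⟨x, hx0.trans h3, hxL⟩)

/-- No recursively enumerable set of sentences lies between the theory of all finite matroids and the
theory of the finite members of a rich class. -/
theorem Rich.not_re {C : (α : Type) → Matroid α → Prop} (hC : Rich.{u} C) (T : ℕ → Prop)
    (h1 : ∀ σ : Fml, σ.IsSentence →
      (∀ (α : Type) (M : Matroid α), M.E.Finite → σ.Sat M (fun _ => ∅)) → T σ.code)
    (h2 : ∀ σ : Fml, σ.IsSentence → T σ.code →
      ∀ (α : Type) (M : Matroid α), C α M → M.E.Finite → σ.Sat M (fun _ => ∅)) : ¬ REPred T := by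
  intro hT
  obtain ⟨σ, hσ, hs, a1, a2⟩ := hC.reduction halt_re
  apply halt_not_computable
  rw [ComputablePred.computable_iff_re_compl_re']
  refine ⟨halt_re, ?_⟩
  have h3 : REPred fun n => T (σ n).code := Partrec.comp hT hσ
  refine h3.of_eq fun n => ?_
  constructor
  · intro h hn
    obtain ⟨α, M, b1, b2, b3⟩ := a1 n hn
    exact b3 (h2 _ (hs n) h α M b1 b2)
  · intro h
    exact h1 _ (hs n) (a2 n h)

/-- The theory of a rich class of finite matroids is undecidable. -/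
theorem Rich.undecidable {C : (α : Type) → Matroid α → Prop} (hC : Rich.{u} C)
    (hfin : ∀ α M, C α M → M.E.Finite) :
    ¬ ∃ f : ℕ →. Bool, Partrec f ∧ ∀ σ : Fml, σ.IsSentence →
      ∃ b : Bool, f σ.code = Part.some b ∧
        (b = true ↔ ∀ (α : Type) (M : Matroid α), C α M → σ.Sat M (fun _ => ∅)) :=
  undecidable_of_models C hfin fun k L x hL hk hx => by
    obtain ⟨α, M, h1, _, h2⟩ := hC.model k L x hL hk hx
    exact ⟨α, M, h1, h2⟩

theorem Emb.refl {α : Type} (M : Matroid α) : Emb M M :=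
  ⟨id, Function.injective_id.injOn, by rw [Set.image_id], fun X _ => by rw [Set.image_id]⟩

/-- the class of the finite `H`-gain-graphic matroids of rank `r` is rich -/
theorem rich_rank (H : Type u) [Group H] [Infinite H] (r : ℕ) (hr : 3 ≤ r) :
    Rich.{u} (fun _ M => M.E.Finite ∧ M.eRank = r ∧ IsGainGraphic H M) := fun _ =>
  ⟨H, inferInstance, r, Or.inl inferInstance, hr, fun α M h1 h2 h3 =>
    ⟨α, M, ⟨h1, h2, h3⟩, h1, Emb.refl M⟩⟩

end Pool.Agent.Y617.MS
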